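import Pool.Agent.MP_ea150c_mp.H68.Glue

/-! Completion invariance of the invariant `c_2` at all prime powers. -/

namespace Pool.Agent.Results.MP_ea150c_mp.Completion

open Pool.Agent.MP_ea150c_mp.H20 Pool.Agent.MP_ea150c_mp.H68

theorem result {V E : Type} [Fintype V] [DecidableEq V] [Fintype E] [DecidableEq E] (s t : E → V)
    (hl : ∀ e, s e ≠ t e) (h4 : ∀ u, deg s t u = 4) (h5 : 5 ≤ Fintype.card V) (v w : V)
    (F : Type) [Field F] [Fintype F] :
    (Fintype.card F : ℤ) ∣ c2 (delS s t v) (delT s t v) F - c2 (delS s t w) (delT s t w) F :=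
  completion hl h4 h5 v w F

end Pool.Agent.Results.MP_ea150c_mp.Completion
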