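import Pool.Agent.MP_ea150c_mp.H74.Fin

/-! An eigenform that matches the invariant `c_2` at the first `J(G)` powers of one good prime has
weight at least three. -/

namespace Pool.Agent.Results.MP_ea150c_mp.FinitePowers

open Pool.Agent.MP_ea150c_mp.H20

theorem result {V E : Type} [Fintype V] [DecidableEq V] [Fintype E] [DecidableEq E] (s t : E → V)
    (h3 : 3 ≤ Fintype.card V) (hc : Conn s t Finset.univ) (h4 : ∀ v, deg s t v ≤ 4)
    (hP : Primitive s t) : ∃ J : ℕ, ∀ (N : ℕ) [NeZero N] (k : ℤ)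
    (f : CuspForm (CongruenceSubgroup.Gamma1 N) k) (χ : DirichletCharacter ℂ N) (a : ℕ → ℂ),
    (∀ n, a n = (UpperHalfPlane.qExpansion 1 f).coeff n) → a 1 = 1 →
    ∀ p : ℕ, p.Prime → 7 ≤ p → ¬ p ∣ N →
    (∀ n, a (p * n) + (if p ∣ n then χ p * (p : ℂ) ^ (k - 1) * a (n / p) else 0) = a p * a n) →
    ∀ α β : ℂ, α + β = a p → α * β = χ p * (p : ℂ) ^ (k - 1) →
    (∀ j, 1 ≤ j → j ≤ J → ∀ (F : Type) [Field F] [Fintype F], Fintype.card F = p ^ j →
      ∃ z : ℤ, (c2 s t F : ℂ) + (α ^ j + β ^ j) = (p : ℂ) ^ j * z) → 3 ≤ k :=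
  Pool.Agent.MP_ea150c_mp.H74.one_prime s t h3 hc h4 hP

end Pool.Agent.Results.MP_ea150c_mp.FinitePowers
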