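import Pool.Agent.MP_ea150c_mp.H20.Weil

/-! The invariant `c_2` does not match Weil numbers of weight one. -/

namespace Pool.Agent.Results.MP_ea150c_mp.NoCurve

open Pool.Agent.MP_ea150c_mp.H20

theorem result {V E : Type} [Fintype V] [DecidableEq V] [Fintype E] [DecidableEq E] (s t : E → V)
    (h3 : 3 ≤ Fintype.card V) (hc : Conn s t Finset.univ) (h4 : ∀ v, deg s t v ≤ 4)
    (hP : Primitive s t) (p : ℕ) (hp : p.Prime) (h7 : 7 ≤ p) (w : ℕ)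
    (f : Polynomial ℤ) (hf : f.Monic) (hw : ∀ z ∈ f.aroots ℂ, ‖z‖ ^ 2 = (p : ℝ) ^ w)
    (h : ∀ j, 1 ≤ j → ∀ (F : Type) [Field F] [Fintype F], Fintype.card F = p ^ j →
      ∃ z : ℤ, (c2 s t F : ℂ) + ((f.aroots ℂ).map (· ^ j)).sum = (p : ℂ) ^ j * z) :
    2 ≤ w ∨ f.natDegree = 0 ∨ (w = 0 ∧ f.natDegree = 1) :=
  weil s t h3 hc h4 hP p hp h7 w f hf hw h

end Pool.Agent.Results.MP_ea150c_mp.NoCurve
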