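import Pool.Agent.MP_ea150c_mp.H20.Dich

/-! The unit root theorem for the invariant `c_2`. -/

namespace Pool.Agent.Results.MP_ea150c_mp.UnitRoot

open Pool.Agent.MP_ea150c_mp.H20

theorem result {V E : Type} [Fintype V] [DecidableEq V] [Fintype E] [DecidableEq E] (s t : E → V)
    (h3 : 3 ≤ Fintype.card V) (hc : Conn s t Finset.univ) (h4 : ∀ v, deg s t v ≤ 4)
    (hP : Primitive s t) (p : ℕ) [Fact p.Prime] (hp : 7 ≤ p) :
    ∃ u : ℤ_[p], (IsUnit u ∨ u = 0) ∧ IsAlgebraic ℚ (u : ℚ_[p]) ∧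
      (∀ k, 1 ≤ k → ∀ (F : Type) [Field F] [Fintype F], Fintype.card F = p ^ k →
        (p : ℤ_[p]) ^ k ∣ (c2 s t F : ℤ_[p]) + u ^ k) ∧
      ∀ γ : PadicAlgCl p, Polynomial.aeval γ (minpoly ℚ (u : ℚ_[p])) = 0 →
        γ ≠ algebraMap ℚ_[p] (PadicAlgCl p) u → ‖γ‖ < (p : ℝ)⁻¹ :=
  dichotomy s t h3 hc h4 hP p hp

end Pool.Agent.Results.MP_ea150c_mp.UnitRoot
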